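import Mathlib
import Pool.Agent.H.MP_f65ae4_nt.C

namespace Pool.Agent.Results.MP_147bb8_nt.Q2

open Nat Finset Pool.Agent.H.MP_f65ae4_nt

/-- `a_k = (28k²+18k+3) C(2k,k)^4 C(3k,k)`. -/
def a (k : ℕ) : ℤ := (28 * k ^ 2 + 18 * k + 3) * ((2 * k).choose k : ℤ) ^ 4 * ((3 * k).choose k : ℤ)

lemma a_eq (n : ℕ) : (a n : ℚ) = (28 * n ^ 2 + 18 * n + 3) *
    (2 ^ n * Cb n ^ 2 * O n * (3 * n)! / (n ! : ℚ) ^ 4) := by
  have h := Nat.add_choose_mul_factorial_mul_factorial (2 * n) n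
  rw [show 2 * n + n = 3 * n by ring, O_fact] at h
  have h' : ((3 * n).choose n : ℚ) * (2 ^ n * n ! * O n) * n ! = (3 * n)! := by exact_mod_cast h
  unfold a
  push_cast
  rw [Cb_eq, ← h']
  unfold Cb
  field_simp

def T (c j : ℕ) : ℚ := (-1) ^ c * 2 ^ (2 * c + j) * (c + j + 1) ^ 3 * Cb (c + j + 1) ^ 2 *
  O (2 * c + j + 1) ^ 2 * (3 * c + 3 * j + 3)! /
  (4 * O (c + j + 1) * O (c + 1) * j ! * (3 * c + j + 2)! * ((c + j + 1)! : ℚ) ^ 2)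

def Phi (k j : ℕ) : ℚ := (-1) ^ k * 2 ^ (2 * k + j) * Cb (k + j) ^ 2 * O (2 * k + j) ^ 2 *
  (3 * k + 3 * j)! * (28 * (k + j) ^ 2 + 20 * (k + j) * k + 18 * (k + j) + 6 * k + 3) /
  (O (k + j) * O k * j ! * (3 * k + j)! * ((k + j)! : ℚ) ^ 2)

lemma wz1 (c j : ℕ) : T c (j + 1) - (-64) * T c j = Phi c (j + 1) - Phi (c + 1) j := by
  unfold T Phi Cb
  have := Opos (2 * c + j + 1)
  have := Opos (c + j + 1)
  have := Opos c
  rw [show 2 * c + (j + 1) + 1 = 2 * c + j + 1 + 1 by ring,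
    show 3 * c + 3 * (j + 1) + 3 = 3 * c + 3 * j + 3 + 1 + 1 + 1 by ring,
    show 3 * c + (j + 1) + 2 = 3 * c + j + 1 + 1 + 1 by ring,
    show c + (j + 1) + 1 = c + j + 1 + 1 by ring,
    show 3 * c + j + 2 = 3 * c + j + 1 + 1 by ring,
    show 2 * c + (j + 1) = 2 * c + j + 1 by ring,
    show 3 * c + 3 * (j + 1) = 3 * c + 3 * j + 3 by ring,
    show 3 * c + (j + 1) = 3 * c + j + 1 by ring, show c + (j + 1) = c + j + 1 by ring,
    show 2 * (c + 1) + j = 2 * c + j + 1 + 1 by ring,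
    show 3 * (c + 1) + 3 * j = 3 * c + 3 * j + 3 by ring,
    show 3 * (c + 1) + j = 3 * c + j + 1 + 1 + 1 by ring, show c + 1 + j = c + j + 1 by ring]
  rw [Os (2 * c + j + 1), Os (c + j + 1), Os c, Fs (3 * c + 3 * j + 3 + 1 + 1),
    Fs (3 * c + 3 * j + 3 + 1), Fs (3 * c + 3 * j + 3), Fs (3 * c + j + 1 + 1), Fs (3 * c + j + 1),
    Fs (c + j + 1), Fs j]
  push_cast
  field_simp
  ring

lemma wz2 (c : ℕ) : T c 0 = Phi c 0 := by
  unfold T Phi Cb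
  have := Opos (2 * c)
  have := Opos c
  simp only [mul_zero, add_zero, show 3 * c + 3 = 3 * c + 1 + 1 + 1 from rfl,
    show 3 * c + 2 = 3 * c + 1 + 1 from rfl, Os, Fs]
  push_cast
  field_simp
  ring

lemma wz3 (n : ℕ) : Phi 0 n = a n := by
  rw [a_eq]
  unfold Phi
  have := Opos n
  simp only [mul_zero, zero_add, O]
  push_cast
  field_simp
  ring

lemma Zex (c j : ℕ) (h : 1 ≤ c + j) : ∃ z : ℤ, T c j =
    (2 * (c + j + 1) + 1) * (c + j + 1) ^ 2 * Cb (c + j + 1) ^ 2 * z := by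
  obtain ⟨z, hz⟩ := dvdZ2 c j h
  obtain ⟨e, he⟩ := dvdE c j h
  refine ⟨(-1) ^ c * z * e, ?_⟩
  have hz' : (2 : ℚ) ^ c * O (2 * c + j + 1) * (3 * c + 3 * j + 3)! =
      2 * (O (c + j + 2) * j ! * (3 * c + j + 2)! * (c + j + 1)!) * z := by exact_mod_cast hz
  have he' : (2 : ℚ) ^ (c + j) * O (2 * c + j + 1) = 2 * (O (c + 1) * (c + j)!) * e := by
    exact_mod_cast he
  have := Opos (c + j + 1)
  have := Opos (c + 1)
  have e1 : T c j = (-1) ^ c * (c + j + 1) ^ 3 * Cb (c + j + 1) ^ 2 *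
      (2 ^ c * O (2 * c + j + 1) * (3 * c + 3 * j + 3)!) * (2 ^ (c + j) * O (2 * c + j + 1)) /
      (4 * O (c + j + 1) * O (c + 1) * j ! * (3 * c + j + 2)! * ((c + j + 1)! : ℚ) ^ 2) := by
    unfold T; ring
  rw [e1, hz', he', show c + j + 2 = c + j + 1 + 1 from rfl, Os (c + j + 1), Fs (c + j)]
  push_cast
  field_simp
  ring

theorem result (n : ℕ) (hn : 1 < n) :
    (2 * (n : ℤ) + 1) * (n : ℤ) ^ 2 * ((2 * n).choose n : ℤ) ^ 2 ∣
      ∑ k ∈ range n, a k * (-64) ^ (n - 1 - k) := by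
  obtain ⟨n, rfl⟩ : ∃ m, n = m + 1 := ⟨n - 1, by omega⟩
  have h := wz_sum (-64) (fun k => (a k : ℚ)) T Phi (by rw [wz2, wz3]) wz1 (fun c => wz2 _)
    (fun n => wz3 _) n
  have hz : ∀ c ∈ range (n + 1), ∃ z : ℤ, T c (n - c) =
      (2 * (n + 1) + 1) * (n + 1) ^ 2 * Cb (n + 1) ^ 2 * z := by
    intro c hc
    obtain ⟨j, rfl⟩ : ∃ j, n = c + j := ⟨n - c, by have := mem_range.1 hc; omega⟩
    rw [show c + j - c = j by omega]
    push_cast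
    exact Zex c j (by omega)
  choose! z hz using hz
  rw [sum_congr rfl hz, ← mul_sum, ← Cb_eq] at h
  refine ⟨∑ c ∈ range (n + 1), z c, ?_⟩
  simp only [Nat.add_sub_cancel]
  exact_mod_cast h

end Pool.Agent.Results.MP_147bb8_nt.Q2
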